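import Mathlib
import Pool.Agent.Lib.MP_51cccb_an.CcMain

set_option autoImplicit false

namespace Pool.Agent.Results.MP_51cccb_an.CloseToConvex

open Pool.Agent.Lib.MP_51cccb_an

theorem result :
    ∃ (f : ℂ → ℂ) (γ : ℕ → ℂ) (c : ℝ), 0 < c ∧
      AnalyticOnNhd ℂ f (Metric.ball (0 : ℂ) 1) ∧
      Set.InjOn f (Metric.ball (0 : ℂ) 1) ∧
      f 0 = 0 ∧
      deriv f 0 = 1 ∧
      (∀ z : ℂ, ‖z‖ < 1 → 0 < ((1 - z) ^ 2 * deriv f z).re) ∧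
      (∀ z : ℂ, ‖z‖ < 1 →
        ∃ s : ℂ, HasSum (fun k : ℕ => γ (k + 1) * z ^ (k + 1)) s ∧
          f z = z * Complex.exp (2 * s)) ∧
      (∃ᶠ k : ℕ in Filter.atTop, c * Real.log k / k ≤ ‖γ k‖) ∧
      (∀ r : ℝ, 0 ≤ r → r < 1 →
        Summable (fun k : ℕ => ((k : ℝ) + 1) * ‖γ (k + 1)‖ * r ^ (k + 1))) ∧
      ∃ᶠ r : ℝ in nhdsWithin (1 : ℝ) (Set.Iio 1),
        c * Real.sqrt (Real.log (1 / (1 - r))) / (1 - r) ≤
          ∑' k : ℕ, ((k : ℝ) + 1) * ‖γ (k + 1)‖ * r ^ (k + 1) := by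
  obtain ⟨f, γ, h1, h2, h3, h4, h5, h6, H, h7, h8⟩ := Cc.dat.package
  refine ⟨f, γ, Cc.kap / 256, div_pos Cc.kap_pos (by norm_num), h1, h2, h3, h4, h5, h6,
    Cc.coef_large h7 h8, ?_, Cc.series_large h7 h8⟩
  intro r hr0 hr1
  have h9 := (h7 (r : ℂ)
    (by rw [Complex.norm_real, Real.norm_of_nonneg hr0]; exact hr1)).summable
  refine (summable_norm_iff.mpr h9).congr fun k => ?_
  rw [norm_mul, norm_mul, norm_pow, Complex.norm_real, Real.norm_of_nonneg hr0]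
  congr 2
  exact_mod_cast Complex.norm_natCast (k + 1)

end Pool.Agent.Results.MP_51cccb_an.CloseToConvex
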